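import Pool.Agent.X65.UC.Poly
import Pool.Agent.X65.UC.TPoly

/-!
# The up-color domination weight on trees and on bipartite graphs

Problem MP_07a0c6_lc, Q1, parts (a) and (b). The definitions are in `Pool.Agent.X65.UC.Defs`:
`IsCol G c` says that `c` is a coloring; `UpDom G c D` says that `D` is up-color dominating for
`(G, c)`; `omegaUC G c` is the minimum weight of such a set (infinite when there is none) and
`OmegaUC G` is the minimum of `omegaUC G c` over all colorings. `UCWBip (M, k)` says that `M` is the
adjacency matrix of a bipartite graph `G`, `k` is positive and `Ω_uc(G) ≤ k`.

Hardness for bipartite graphs: reduction from monotone not-all-equal satisfiability. The graph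
consists of a root with many pendant neighbours, two set vertices for each variable, adjacent to the
root, and many copies of an element for each variable and of two elements for each clause. In a
cheap solution the root has color `2`, and exactly one set vertex of each variable is chosen, with
color `1`; if the root has color `1`, then all chosen set vertices cost at least `2`.

Trees: dynamic programming over (vertex, in the set or dominated, color); the colors which occur in
an optimal solution are at most the optimum, so at most the square of the number of vertices.
-/

set_option autoImplicit false

namespace Pool.Agent.Results.MP_07a0c6_lc.TreesAndBipartite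

open Pool.Agent.NPC Pool.Agent.NPC.R671 Pool.Agent.X65.UC

/-- **The up-color domination weight is computable in polynomial time for trees, and UCW is
NP-complete for bipartite graphs.** -/
theorem result :
    (∃ A : List Bool → List Bool, PolyTime A ∧
      ∀ (n : ℕ) (G : SimpleGraph (Fin n)), G.IsTree →
        ∃ m : ℕ, A (bits (adjMatrix G)) = bits m ∧ OmegaUC G = (m : ℕ∞)) ∧
    InNPP UCWBip ∧ NPHardP UCWBip :=
  ⟨trees, inNPP_UCWBip, hardI_UCWBip.toNPHardP⟩

end Pool.Agent.Results.MP_07a0c6_lc.TreesAndBipartite
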